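import Pool.Agent.Helper10.Fam.Stmts
import Pool.Agent.Helper34.Lor.UP8

/-! Module LATT: the lattice and the reflections. -/

set_option autoImplicit false

namespace Pool.Agent.Helper10.Fam

open Pool.Agent.Helper10.Lor
open scoped BigOperators

/-- coordinates of `rv` -/
theorem latt_rv (D : Dat) (β : Fin D.n → E D.n) (m : ℕ → ℝ) :
    rv D β m = (m (D.n + 1), m D.n - m (D.n + 1),
      ∑ j : Fin D.n, (m D.n * (D.w0.getD j 0 : ℝ) - m j) • β j) := by
  have h1 : ∀ i : Fin D.n, alp D β i = (0, 0, β i) := fun i => by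
    unfold alp
    rw [dif_pos i.2]
  have h2 : alp D β D.n = (0, -1, -∑ j : Fin D.n, (D.w0.getD j 0 : ℝ) • β j) := by
    unfold alp
    rw [dif_neg (lt_irrefl _), if_pos rfl]
  have h3 : alp D β (D.n + 1) = (-1, 1, 0) := by
    unfold alp
    rw [dif_neg (by omega), if_neg (by omega)]
  unfold rv
  rw [Finset.sum_range_succ, Finset.sum_range_succ, h2, h3, Finset.sum_range]
  have h4 : ∑ i : Fin D.n, m i • alp D β i = (0, 0, ∑ i : Fin D.n, m i • β i) := by
    have h5 : ∀ i : Fin D.n, m i • alp D β i = (0, 0, m i • β i) := fun i => by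
      rw [h1, Prod.smul_mk, Prod.smul_mk, smul_zero]
    rw [Finset.sum_congr rfl fun i _ => h5 i]
    refine Prod.ext ?_ (Prod.ext ?_ ?_)
    · simp [Prod.fst_sum]
    · simp [Prod.snd_sum, Prod.fst_sum]
    · simp [Prod.snd_sum]
  rw [h4]
  refine Prod.ext ?_ (Prod.ext ?_ ?_)
  · simp
  · simp
    ring
  · simp only [Prod.smul_mk, Prod.mk_add_mk, Prod.neg_mk, smul_neg, smul_zero, add_zero,
      Finset.smul_sum, smul_smul, sub_smul, Finset.sum_sub_distrib]
    abel

theorem latt_li (hA : ST_ALPH) (D : Dat) (β : Fin D.n → E D.n) (hD : DOK D) (hB : IsBase D β) :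
    LinearIndependent ℝ β := by
  rw [Fintype.linearIndependent_iff]
  intro g hg i
  have h := hA.inj D β hD hB (fun k => if h : k < D.n then g ⟨k, h⟩ else 0) (fun _ => 0) (by
    rw [latt_rv, latt_rv]
    refine Prod.ext ?_ (Prod.ext ?_ ?_)
    · simp
    · simp
    · simp only [lt_irrefl, dif_neg, not_false_eq_true, zero_mul, zero_sub, Fin.is_lt, dif_pos,
        Fin.eta, neg_smul, Finset.sum_neg_distrib, hg, neg_zero, zero_smul,
        Finset.sum_const_zero]) i (by omega)
  simpa using h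

theorem latt_mem (D : Dat) (β : Fin D.n → E D.n) (x : E D.n) :
    x ∈ latOf β ↔ ∃ m : Fin D.n → ℤ, x = ∑ i, (m i : ℝ) • β i := by
  have h1 : x ∈ latOf β ↔ x ∈ Submodule.span ℤ (Set.range β) := by
    unfold latOf
    rw [← Submodule.span_int_eq_addSubgroupClosure]
    rfl
  rw [h1, Submodule.mem_span_range_iff_exists_fun]
  constructor
  · rintro ⟨c, rfl⟩
    exact ⟨c, Finset.sum_congr rfl fun i _ => (Int.cast_smul_eq_zsmul ℝ _ _).symm⟩
  · rintro ⟨m, rfl⟩
    exact ⟨m, Finset.sum_congr rfl fun i _ => (Int.cast_smul_eq_zsmul ℝ _ _).symm⟩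

theorem latt_inner (D : Dat) (β : Fin D.n → E D.n) (hB : IsBase D β) (x y : E D.n)
    (hx : x ∈ latOf β) (hy : y ∈ latOf β) : ∃ k : ℤ, inner ℝ x y = k := by
  obtain ⟨m, rfl⟩ := (latt_mem D β x).1 hx
  obtain ⟨m', rfl⟩ := (latt_mem D β y).1 hy
  refine ⟨∑ i, m i * ∑ j, m' j * (if i = j then 2 else -(ent D.G i j : ℤ)), ?_⟩
  rw [sum_inner]
  push_cast
  refine Finset.sum_congr rfl fun i _ => ?_
  rw [real_inner_smul_left, inner_sum]
  congr 1
  refine Finset.sum_congr rfl fun j _ => ?_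
  rw [real_inner_smul_right, hB i j]

theorem latt_even (D : Dat) (β : Fin D.n → E D.n) (hB : IsBase D β) (x : E D.n)
    (hx : x ∈ latOf β) : ∃ k : ℤ, ‖x‖ ^ 2 = 2 * k := by
  refine AddSubgroup.closure_induction (p := fun z _ => ∃ k : ℤ, ‖z‖ ^ 2 = 2 * k)
    ?_ ?_ ?_ ?_ (show x ∈ AddSubgroup.closure (Set.range β) from hx)
  · rintro _ ⟨i, rfl⟩
    refine ⟨1, ?_⟩
    rw [← real_inner_self_eq_norm_sq, hB i i, if_pos rfl]
    norm_num
  · exact ⟨0, by simp⟩
  · rintro a b ha hb ⟨k, hk⟩ ⟨l, hl⟩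
    obtain ⟨q, hq⟩ := latt_inner D β hB a b ha hb
    refine ⟨k + q + l, ?_⟩
    rw [norm_add_sq_real, hk, hl, hq]
    push_cast
    ring
  · rintro a ha ⟨k, hk⟩
    exact ⟨k, by rw [norm_neg]; exact hk⟩

theorem latt_mem2 (D : Dat) (β : Fin D.n → E D.n) (v : LV D.n) :
    v ∈ lat (latOf β) ↔ ∃ m : ℕ → ℤ, v = rv D β (fun i => (m i : ℝ)) := by
  constructor
  · rintro ⟨⟨a, ha⟩, ⟨b, hb⟩, hc⟩
    obtain ⟨k, hk⟩ := (latt_mem D β _).1 hc
    refine ⟨fun i => if h : i < D.n then (a + b) * (D.w0.getD i 0 : ℤ) - k ⟨i, h⟩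
      else if i = D.n then a + b else a, ?_⟩
    rw [latt_rv]
    refine Prod.ext ?_ (Prod.ext ?_ ?_)
    · simp [ha]
    · simp [hb]
    · simp only [lt_irrefl, dif_neg, not_false_eq_true, if_pos, Fin.is_lt, dif_pos, Fin.eta]
      rw [hk]
      refine Finset.sum_congr rfl fun j _ => ?_
      congr 1
      push_cast
      ring
  · rintro ⟨m, rfl⟩
    rw [latt_rv]
    refine ⟨⟨m (D.n + 1), rfl⟩, ⟨m D.n - m (D.n + 1), by push_cast; rfl⟩, ?_⟩
    refine (latt_mem D β _).2 ⟨fun j => m D.n * (D.w0.getD j 0 : ℤ) - m j, ?_⟩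
    show (∑ j : Fin D.n, ((m D.n : ℝ) * (D.w0.getD j 0 : ℝ) - (m j : ℝ)) • β j) = _
    refine Finset.sum_congr rfl fun j _ => ?_
    push_cast
    rfl

/-- two timelike vectors with positive first coordinates -/
theorem latt_time {n : ℕ} {x y : LV n} (hx : form x x < 0) (hy : form y y < 0) (hx1 : 0 < x.1)
    (hy1 : 0 < y.1) : form x y < 0 := by
  unfold form at *
  rw [real_inner_self_eq_norm_sq] at hx hy
  have h1 := real_inner_le_norm x.2.2 y.2.2
  have hx2 : 0 < x.2.1 := by
    by_contra hc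
    push Not at hc
    nlinarith [sq_nonneg ‖x.2.2‖, mul_nonneg hx1.le (neg_nonneg.2 hc)]
  have hy2 : 0 < y.2.1 := by
    by_contra hc
    push Not at hc
    nlinarith [sq_nonneg ‖y.2.2‖, mul_nonneg hy1.le (neg_nonneg.2 hc)]
  have hp : 0 < x.1 * y.2.1 + x.2.1 * y.1 := by positivity
  have h2 : ‖x.2.2‖ * ‖y.2.2‖ < x.1 * y.2.1 + x.2.1 * y.1 := by
    refine lt_of_pow_lt_pow_left₀ 2 hp.le ?_
    have h3 : ‖x.2.2‖ ^ 2 < 2 * (x.1 * x.2.1) := by linarith
    have h4 : ‖y.2.2‖ ^ 2 < 2 * (y.1 * y.2.1) := by linarith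
    have h5 : ‖x.2.2‖ ^ 2 * ‖y.2.2‖ ^ 2 < (2 * (x.1 * x.2.1)) * (2 * (y.1 * y.2.1)) :=
      mul_lt_mul'' h3 h4 (sq_nonneg _) (sq_nonneg _)
    nlinarith [sq_nonneg (x.1 * y.2.1 - x.2.1 * y.1)]
  linarith

open Pool.Agent.Helper34.Lor in
theorem latt_rf (hA : ST_ALPH) (D : Dat) (β : Fin D.n → E D.n) (hD : DOK D) (hB : IsBase D β)
    (i : ℕ) (hi : i < D.n + 2) : ∃ γ ∈ OL (latOf β), ∀ v, γ v = rf D β i v := by
  have h2 : form (alp D β i) (alp D β i) = 2 := by
    rw [hA.form_alp D β hD hB i hi i hi, if_pos rfl, hD.diagG i hi]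
    simp
  let f : LV D.n →ₗ[ℝ] LV D.n := LinearMap.id - (fl (alp D β i)).smulRight (alp D β i)
  have hf : ∀ v, f v = rf D β i v := fun v => rfl
  have hinv : Function.Involutive f := by
    intro v
    rw [hf, hf]
    unfold rf
    rw [form_sub_left, form_smul_left, h2, sub_sub, ← add_smul]
    have : form v (alp D β i) + (form v (alp D β i) - form v (alp D β i) * 2) = 0 := by ring
    rw [this, zero_smul, sub_zero]
  have hform : ∀ x y, form (rf D β i x) (rf D β i y) = form x y := by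
    intro x y
    unfold rf
    rw [form_sub_left, form_sub_right, form_sub_right, form_smul_left, form_smul_left,
      form_smul_right, form_smul_right, h2, form_comm (alp D β i) y]
    ring
  have hlat : ∀ v ∈ lat (latOf β), rf D β i v ∈ lat (latOf β) := by
    intro v hv
    obtain ⟨m, rfl⟩ := (latt_mem2 D β v).1 hv
    refine (latt_mem2 D β _).2 ⟨fun j => m j + if j = i then
      -2 * m i + ∑ k ∈ Finset.range (D.n + 2), (ent D.G k i : ℤ) * m k else 0, ?_⟩
    unfold rf
    rw [hA.rv_form D β hD hB _ i hi]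
    set q : ℝ := -2 * (m i : ℝ) + ∑ k ∈ Finset.range (D.n + 2), (ent D.G k i : ℝ) * (m k : ℝ)
      with hq
    have hcast : ∀ j, (((m j + if j = i then
        -2 * m i + ∑ k ∈ Finset.range (D.n + 2), (ent D.G k i : ℤ) * m k else 0 : ℤ)) : ℝ)
        = (m j : ℝ) + if j = i then q else 0 := by
      intro j
      split_ifs
      · rw [hq]
        push_cast
        ring
      · push_cast
        ring
    simp only [hcast]
    unfold rv
    simp only [add_smul, Finset.sum_add_distrib, ite_smul, zero_smul]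
    rw [Finset.sum_ite_eq' (Finset.range (D.n + 2)) i, if_pos (Finset.mem_range.2 hi), neg_add]
    rfl
  refine ⟨LinearEquiv.ofInvolutive f hinv, ⟨⟨fun x y => ?_, fun x hx hx1 => ?_⟩, fun x => ?_⟩,
    fun v => rfl⟩
  · exact hform x y
  · show 0 < (rf D β i x).1
    have hy : form (rf D β i x) (rf D β i x) < 0 := by rw [hform]; exact hx
    have hxy : form x (rf D β i x) < 0 := by
      unfold rf
      rw [form_sub_right, form_smul_right]
      nlinarith [mul_self_nonneg (form x (alp D β i))]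
    rcases lt_trichotomy (rf D β i x).1 0 with h | h | h
    · exfalso
      have hn : form (-(rf D β i x)) (-(rf D β i x)) < 0 := by
        have e : form (-(rf D β i x)) (-(rf D β i x)) = form (rf D β i x) (rf D β i x) := by
          simp [form]
        rw [e]; exact hy
      have h3 := latt_time hx hn hx1 (by rw [Prod.fst_neg]; linarith)
      have h4 : form x (-(rf D β i x)) = -form x (rf D β i x) := by
        simp [form]
        ring
      rw [h4] at h3
      linarith
    · exfalso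
      have h0 : 0 ≤ form (rf D β i x) (rf D β i x) := by
        unfold form
        rw [h]
        have := real_inner_self_nonneg (x := (rf D β i x).2.2)
        linarith
      linarith
    · exact h
  · constructor
    · intro h
      have h3 := hlat _ h
      have h4 : rf D β i ((LinearEquiv.ofInvolutive f hinv) x) = x := hinv x
      rwa [h4] at h3
    · exact hlat x

theorem st_LATT (hA : ST_ALPH) : ST_LATT where
  even D β hD hB := ⟨latt_li hA D β hD hB, latt_mem D β, latt_even D β hB⟩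
  mem D β _ _ := latt_mem2 D β
  rf_mem D β hD hB i hi := latt_rf hA D β hD hB i hi

end Pool.Agent.Helper10.Fam
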